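import Mathlib

set_option autoImplicit false

/-!
Gorenstein local domains of dimension two, of arbitrarily large multiplicity, for which
`e_HK = s + (1 - s) e`.

Let `k` be an F-finite field of characteristic `p`, `Q = p^m` and `A = k⟦x, y⟧[z]/(z^Q - x^Q y)`. Then
`e(A) = e_HK(A) = Q` and `s(A) = 0`.
-/

namespace Pool.Agent.Results.MP_be9c2a_al.InseparableHypersurface

open Filter IsLocalRing
open scoped Topology

/-! ### Definitions of the problem -/

section Defs

/-- The Krull dimension of a ring, as a natural number. -/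
noncomputable def dimN (A : Type) [CommRing A] : ℕ := ((ringKrullDim A).unbotD 0).toNat

/-- The length `ℓ(A/I)`. -/
noncomputable def colength {A : Type} [CommRing A] (I : Ideal A) : ℕ∞ := Module.length A (A ⧸ I)

/-- The length `ℓ(A/I)` as a real number (if it is finite). -/
noncomputable def len {A : Type} [CommRing A] (I : Ideal A) : ℝ := ((colength I).toNat : ℝ)

/-- `e` is the Hilbert–Samuel multiplicity of the local ring `A`: the limit of `d! ℓ(A/𝔪^n)/n^d`. -/
def IsMult (A : Type) [CommRing A] [IsLocalRing A] (e : ℝ) : Prop :=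
  Tendsto (fun n : ℕ => ((dimN A).factorial : ℝ) * len (maximalIdeal A ^ n) / (n : ℝ) ^ dimN A)
    atTop (𝓝 e)

/-- The ideal `I^{[q]}` generated by the `q`-th powers of the elements of `I`. -/
def bracket {A : Type} [CommRing A] (I : Ideal A) (q : ℕ) : Ideal A :=
  Ideal.span {b | ∃ a ∈ I, b = a ^ q}

/-- `h` is the Hilbert–Kunz multiplicity of `A`: the limit of `ℓ(A/𝔪^{[q]})/q^d`, `q = p^e`. -/
def IsHK (p : ℕ) (A : Type) [CommRing A] [IsLocalRing A] (h : ℝ) : Prop :=
  Tendsto (fun e : ℕ => len (bracket (maximalIdeal A) (p ^ e)) / ((p : ℝ) ^ e) ^ dimN A) atTop (𝓝 h)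

/-- The number `a_e`: the largest `n` such that there is a surjective `A`-linear map
`F^e_* A → A^n`, that is, a surjective additive map `φ : A → A^n` with
`φ (a^(p^e) b) = a φ(b)`. -/
noncomputable def freeRank (p : ℕ) (A : Type) [CommRing A] (e : ℕ) : ℕ :=
  sSup {n : ℕ | ∃ φ : A →+ (Fin n → A), (∀ a b : A, φ (a ^ (p ^ e) * b) = a • φ b) ∧
    Function.Surjective φ}

/-- The degree `[K : K^p]`. -/
noncomputable def pdeg (p : ℕ) (K : Type) [Field K] : ℕ :=
  Module.finrank (Subfield.closure {b : K | ∃ a, b = a ^ p}) K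

/-- `s` is the F-signature of `A`: the limit of `a_e / (p^{ed} [K : K^p]^e)`, `K = A/𝔪`. -/
def IsFSig (p : ℕ) (A : Type) [CommRing A] [IsLocalRing A] (s : ℝ) : Prop :=
  Tendsto (fun e : ℕ => (freeRank p A e : ℝ) /
    (((p : ℝ) ^ e) ^ dimN A * (pdeg p (ResidueField A) : ℝ) ^ e)) atTop (𝓝 s)

/-- Gorenstein: some regular sequence in the maximal ideal, of length the dimension, generates an
irreducible ideal. -/
def Gor (A : Type) [CommRing A] [IsLocalRing A] : Prop :=
  ∃ xs : List A, (∀ x ∈ xs, x ∈ maximalIdeal A) ∧ RingTheory.Sequence.IsRegular A xs ∧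
    xs.length = dimN A ∧ InfIrred (Ideal.span {r : A | r ∈ xs})

/-- `A` is an F-finite Gorenstein noetherian local domain of dimension two with `e = e_HK = Q` and
`s = 0`. -/
def IsExample (p : ℕ) [Fact p.Prime] (A : Type) [CommRing A] [IsLocalRing A] [CharP A p] (Q : ℝ) :
    Prop :=
  IsNoetherianRing A ∧ IsDomain A ∧ (frobenius A p).Finite ∧ dimN A = 2 ∧ Gor A ∧
    IsMult A Q ∧ IsHK p A Q ∧ IsFSig p A 0

/-- Q1: an F-finite Gorenstein local ring of dimension `d ≥ 2` with `e_HK = s + (1 - s) e` has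
`e ≤ 2`. -/
def Q1 : Prop :=
  ∀ (p : ℕ) [Fact p.Prime] (A : Type) [CommRing A] [IsLocalRing A] [IsNoetherianRing A] [CharP A p],
    (frobenius A p).Finite → Gor A → 2 ≤ dimN A → ∀ e h s : ℝ, IsMult A e → IsHK p A h →
      IsFSig p A s → h = s + (1 - s) * e → e ≤ 2

end Defs

/-! ### Length and restriction of scalars -/

section Length

lemma isSimple_restrict {A B : Type} [CommRing A] [CommRing B] [IsLocalRing B] [Algebra A B]
    (h : ∀ y : B, ∃ a : A, y - algebraMap A B a ∈ maximalIdeal B)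
    {M : Type} [AddCommGroup M] [Module B M] [Module A M] [IsScalarTower A B M]
    (hM : IsSimpleModule B M) : IsSimpleModule A M := by
  rw [isSimpleModule_iff_toSpanSingleton_surjective] at hM ⊢
  refine ⟨hM.1, fun x hx => ?_⟩
  have hz : ∀ z ∈ maximalIdeal B, z • x = 0 := by
    intro z hz
    by_contra hne
    obtain ⟨b, hb⟩ := hM.2 (z • x) hne x
    have hb' : b • z • x = x := hb
    have h1 : (1 - b * z) • x = 0 := by
      rw [sub_smul, one_smul, mul_smul, hb', sub_self]
    have hu : IsUnit (1 - b * z) := by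
      by_contra hnu
      have h2 : (1 - b * z) ∈ maximalIdeal B := (mem_maximalIdeal _).2 hnu
      have h3 : (1 : B) ∈ maximalIdeal B := by
        have := Ideal.add_mem _ h2 (Ideal.mul_mem_left _ b hz)
        rwa [sub_add_cancel] at this
      exact (Ideal.ne_top_iff_one _).1 (maximalIdeal.isMaximal B).ne_top h3
    obtain ⟨w, hw⟩ := hu
    apply hx
    have := congrArg (fun t => (↑w⁻¹ : B) • t) h1
    simpa [← hw, smul_smul] using this
  intro y
  obtain ⟨b, hb⟩ := hM.2 x hx y
  obtain ⟨a, ha⟩ := h b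
  refine ⟨a, ?_⟩
  have h1 := hz _ ha
  rw [sub_smul, sub_eq_zero] at h1
  have hb' : b • x = y := hb
  show a • x = y
  rw [← hb', h1, algebraMap_smul]

lemma length_restrict {A B : Type} [CommRing A] [CommRing B] [IsLocalRing B] [Algebra A B]
    (h : ∀ y : B, ∃ a : A, y - algebraMap A B a ∈ maximalIdeal B)
    {M : Type} [AddCommGroup M] [Module B M] (hM : IsFiniteLength B M) :
    ∀ [Module A M] [IsScalarTower A B M], Module.length A M = Module.length B M := by
  induction hM with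
  | of_subsingleton =>
    intro _ _
    rw [Module.length_eq_zero, Module.length_eq_zero]
  | @of_simple_quotient M _ _ N hs hN ih =>
    intro _ _
    rw [Module.length_eq_add_of_exact N.subtype N.mkQ N.subtype_injective
      (Submodule.mkQ_surjective _) (LinearMap.exact_subtype_mkQ N)]
    rw [Module.length_eq_add_of_exact (N.subtype.restrictScalars A) (N.mkQ.restrictScalars A)
      N.subtype_injective (Submodule.mkQ_surjective _) (LinearMap.exact_subtype_mkQ N)]
    have h1 : IsSimpleModule A (M ⧸ N) := isSimple_restrict h hs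
    have e1 : Module.length A (M ⧸ N) = 1 := Module.length_eq_one A (M ⧸ N)
    have e2 : Module.length B (M ⧸ N) = 1 := Module.length_eq_one B (M ⧸ N)
    rw [e1, e2]
    congr 1
    exact ih

end Length

/-! ### Colength of an extended ideal -/

section Free

lemma mem_map_iff {A B : Type} [CommRing A] [CommRing B] [Algebra A B] {n : ℕ}
    (e : B ≃ₗ[A] (Fin n → A)) (J : Ideal A) (y : B) :
    y ∈ J.map (algebraMap A B) ↔ ∀ i, e y i ∈ J := by
  constructor
  · intro hy
    have hy' : y ∈ (J • ⊤ : Submodule A B) := by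
      rw [Ideal.smul_top_eq_map]
      exact hy
    refine Submodule.smul_induction_on hy' ?_ ?_
    · intro r hr m _ i
      rw [map_smul]
      exact Ideal.mul_mem_right _ _ hr
    · intro a b ha hb i
      rw [map_add]
      exact Ideal.add_mem _ (ha i) (hb i)
  · intro h
    have h1 : y = ∑ i, e y i • e.symm (Pi.single i 1) := by
      apply e.injective
      rw [map_sum]
      simp only [map_smul, LinearEquiv.apply_symm_apply]
      ext j
      simp [Finset.sum_apply, Pi.single_apply]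
    rw [h1]
    refine Ideal.sum_mem _ fun i _ => ?_
    rw [Algebra.smul_def]
    exact Ideal.mul_mem_right _ _ (Ideal.mem_map_of_mem _ (h i))

lemma length_quot_map {A B : Type} [CommRing A] [CommRing B] [Algebra A B] {n : ℕ}
    (e : B ≃ₗ[A] (Fin n → A)) (J : Ideal A) :
    Module.length A (B ⧸ J.map (algebraMap A B)) = n * Module.length A (A ⧸ J) := by
  let g : B →ₗ[A] (Fin n → A ⧸ J) :=
    LinearMap.pi fun i => (Submodule.mkQ J).comp ((LinearMap.proj i).comp e.toLinearMap)
  have hg : ∀ y i, g y i = Ideal.Quotient.mk J (e y i) := fun y i => rfl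
  have hsurj : Function.Surjective g := by
    intro v
    choose w hw using fun i => Ideal.Quotient.mk_surjective (v i)
    refine ⟨e.symm w, ?_⟩
    ext i
    rw [hg, LinearEquiv.apply_symm_apply, hw]
  have hker : LinearMap.ker g = (J.map (algebraMap A B)).restrictScalars A := by
    ext y
    rw [LinearMap.mem_ker, Submodule.restrictScalars_mem, mem_map_iff e]
    constructor
    · intro h i
      rw [← Ideal.Quotient.eq_zero_iff_mem, ← hg, h]
      rfl
    · intro h
      ext i
      rw [hg]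
      exact Ideal.Quotient.eq_zero_iff_mem.2 (h i)
  have h1 : Module.length A (B ⧸ (J.map (algebraMap A B)).restrictScalars A) =
      n * Module.length A (A ⧸ J) := by
    rw [← hker, (g.quotKerEquivOfSurjective hsurj).length_eq, Module.length_pi]
    simp
  rw [← h1]
  exact ((Submodule.Quotient.restrictScalarsEquiv A (J.map (algebraMap A B))).length_eq).symm

/-- A free extension of rank `n` without residue field extension multiplies colengths by `n`. -/
lemma colength_map {A B : Type} [CommRing A] [CommRing B] [IsLocalRing B] [Algebra A B] {n : ℕ}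
    (e : B ≃ₗ[A] (Fin n → A))
    (h : ∀ y : B, ∃ a : A, y - algebraMap A B a ∈ maximalIdeal B) (I : Ideal A)
    (hfin : IsFiniteLength B (B ⧸ I.map (algebraMap A B))) :
    colength (I.map (algebraMap A B)) = n * colength I := by
  have h1 := length_quot_map e I
  have h3 := length_restrict (A := A) h hfin
  rw [colength, ← h3]
  exact h1

end Free

/-! ### Lengths -/

section Len

variable {P : Type} [CommRing P]

lemma colength_mono {I J : Ideal P} (h : I ≤ J) : colength J ≤ colength I := by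
  have hs : Function.Surjective (Submodule.factor h) := Submodule.factor_surjective h
  exact Module.length_le_of_surjective _ hs

lemma colength_top : colength (⊤ : Ideal P) = 0 := by
  unfold colength
  have : Subsingleton (P ⧸ (⊤ : Ideal P)) := Ideal.Quotient.subsingleton_iff.mpr rfl
  exact Module.length_eq_zero

/-- The ideal `A : s`. -/
def quo (A : Ideal P) (s : P) : Ideal P := Submodule.comap (LinearMap.mulLeft P s) A

lemma mem_quo {A : Ideal P} {s a : P} : a ∈ quo A s ↔ s * a ∈ A := Iff.rfl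

lemma len_add (A : Ideal P) (s : P) :
    colength A = colength (A ⊔ Ideal.span {s}) + colength (quo A s) := by
  unfold colength
  let f : (P ⧸ quo A s) →ₗ[P] (P ⧸ A) :=
    Submodule.mapQ (quo A s) A (LinearMap.mulLeft P s) (fun _ ha => ha)
  let g : (P ⧸ A) →ₗ[P] (P ⧸ (A ⊔ Ideal.span {s})) := Submodule.factor le_sup_left
  have hf : Function.Injective f := by
    rw [injective_iff_map_eq_zero]
    intro q hq
    obtain ⟨a, rfl⟩ := Submodule.Quotient.mk_surjective _ q
    have h1 : s * a ∈ A := (Submodule.Quotient.mk_eq_zero _).mp hq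
    exact (Submodule.Quotient.mk_eq_zero _).mpr h1
  have hg : Function.Surjective g := Submodule.factor_surjective _
  have hex : Function.Exact f g := by
    intro p
    obtain ⟨a, rfl⟩ := Submodule.Quotient.mk_surjective _ p
    constructor
    · intro h
      have h1 : a ∈ A ⊔ Ideal.span {s} := (Submodule.Quotient.mk_eq_zero _).mp h
      obtain ⟨b, hb, c, hc, rfl⟩ := Submodule.mem_sup.mp h1
      obtain ⟨e, rfl⟩ := Ideal.mem_span_singleton.mp hc
      refine ⟨Submodule.Quotient.mk e, ?_⟩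
      show Submodule.Quotient.mk (s * e) = _
      rw [Submodule.Quotient.eq]
      have : s * e - (b + s * e) = - b := by ring
      rw [this]
      exact A.neg_mem hb
    · rintro ⟨q, hq⟩
      obtain ⟨e, rfl⟩ := Submodule.Quotient.mk_surjective _ q
      rw [← hq]
      show Submodule.Quotient.mk (s * e) = (0 : P ⧸ (A ⊔ Ideal.span {s}))
      rw [Submodule.Quotient.mk_eq_zero]
      exact Ideal.mem_sup_right (Ideal.mul_mem_right _ _ (Ideal.mem_span_singleton_self s))
  rw [Module.length_eq_add_of_exact f g hf hg hex, add_comm]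

lemma colength_comap {Q : Type} [CommRing Q] (φ : P →+* Q) (hφ : Function.Surjective φ)
    (J : Ideal Q) : colength (J.comap φ) = colength J := by
  unfold colength
  let _ : Algebra P Q := φ.toAlgebra
  have h1 : Function.Surjective (algebraMap P Q) := hφ
  rw [← Module.length_eq_of_surjective (R := Q) (S := P) (M := Q ⧸ J) h1]
  let e : P →ₗ[P] (Q ⧸ J) := (J.mkQ.restrictScalars P).comp (Algebra.linearMap P Q)
  have he : Function.Surjective e := (Submodule.mkQ_surjective J).comp hφ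
  have hk : LinearMap.ker e = J.comap φ := by
    ext p
    rw [LinearMap.mem_ker, Ideal.mem_comap]
    exact Submodule.Quotient.mk_eq_zero J
  rw [← hk]
  exact (e.quotKerEquivOfSurjective he).length_eq

end Len

/-! ### Finite length of primary quotients -/

section Primary

variable {S : Type} [CommRing S] [IsLocalRing S] [IsNoetherianRing S]

lemma isFiniteLength_quot {I : Ideal S} (h : I.radical = maximalIdeal S) :
    IsFiniteLength S (S ⧸ I) := by
  have hle : I ≤ maximalIdeal S := h ▸ Ideal.le_radical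
  have hne : I ≠ ⊤ := fun h' => (maximalIdeal.isMaximal S).ne_top (top_le_iff.1 (h' ▸ hle))
  have : Nontrivial (S ⧸ I) := Ideal.Quotient.nontrivial_iff.2 hne
  have : IsLocalRing (S ⧸ I) :=
    IsLocalRing.of_surjective' (Ideal.Quotient.mk I) Ideal.Quotient.mk_surjective
  have hart : IsArtinianRing (S ⧸ I) := by
    rw [isArtinianRing_iff_isNilpotent_maximalIdeal]
    obtain ⟨t, ht⟩ := Ideal.exists_radical_pow_le_of_fg I (IsNoetherian.noetherian _)
    refine ⟨t, ?_⟩
    rw [h] at ht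
    have h1 : maximalIdeal (S ⧸ I) = (maximalIdeal S).map (Ideal.Quotient.mk I) := by
      apply le_antisymm
      · intro y hy
        obtain ⟨x, rfl⟩ := Ideal.Quotient.mk_surjective y
        refine Ideal.mem_map_of_mem _ ?_
        rw [mem_maximalIdeal] at hy ⊢
        exact fun hx => hy (hx.map _)
      · rw [Ideal.map_le_iff_le_comap]
        intro x hx
        rw [Ideal.mem_comap, mem_maximalIdeal]
        intro hu
        obtain ⟨z, hz⟩ := hu.exists_right_inv
        obtain ⟨w, rfl⟩ := Ideal.Quotient.mk_surjective z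
        rw [← map_mul, ← map_one (Ideal.Quotient.mk I), Ideal.Quotient.eq] at hz
        have h2 : (1 : S) ∈ maximalIdeal S := by
          have h3 := Ideal.sub_mem _ (Ideal.mul_mem_right w _ hx) (hle hz)
          rwa [sub_sub_cancel] at h3
        exact (Ideal.ne_top_iff_one _).1 (maximalIdeal.isMaximal S).ne_top h2
    rw [h1, ← Ideal.map_pow, Ideal.zero_eq_bot, Ideal.map_eq_bot_iff_le_ker, Ideal.mk_ker]
    exact ht
  have h2 : IsArtinian S (S ⧸ I) :=
    isArtinian_of_surjective_algebraMap (Ideal.Quotient.mk_surjective (I := I))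
  rw [← Module.length_ne_top_iff]
  exact Module.length_ne_top

lemma colength_ne_top {I : Ideal S} (h : I.radical = maximalIdeal S) : colength I ≠ ⊤ := by
  rw [colength, Module.length_ne_top_iff]
  exact isFiniteLength_quot h

end Primary

/-! ### The ring `k⟦x, y⟧` -/

section Series

open PowerSeries

variable {k : Type} [Field k]

lemma eq_C_add {R : Type} [CommRing R] (f : R⟦X⟧) : ∃ g, f = C (constantCoeff f) + X * g := by
  have h : X ∣ f - C (constantCoeff f) := by
    rw [X_dvd_iff, map_sub, constantCoeff_C, sub_self]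
  obtain ⟨g, hg⟩ := h
  exact ⟨g, by rw [← hg]; ring⟩

variable (k) in
/-- The `a`-th power of the ideal `(y, z)` of `k⟦z, y⟧`, described by coefficients. -/
noncomputable def FI (a : ℕ) : Ideal k⟦X⟧⟦X⟧ where
  carrier := {f | ∀ i, X ^ (a - i) ∣ coeff i f}
  zero_mem' := fun i => by
    rw [map_zero]
    exact dvd_zero _
  add_mem' := fun hf hg i => by
    rw [map_add]
    exact dvd_add (hf i) (hg i)
  smul_mem' := fun c f hf i => by
    rw [smul_eq_mul, coeff_mul]
    apply Finset.dvd_sum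
    intro p hp
    rw [Finset.HasAntidiagonal.mem_antidiagonal] at hp
    exact ((pow_dvd_pow X (by omega)).trans (hf p.2)).mul_left _

lemma mem_FI {a : ℕ} {f : k⟦X⟧⟦X⟧} : f ∈ FI k a ↔ ∀ i, X ^ (a - i) ∣ coeff i f := Iff.rfl

variable (k) in
/-- The power series whose constant coefficient is divisible by `z ^ b`. -/
noncomputable def GI (b : ℕ) : Ideal k⟦X⟧⟦X⟧ :=
  (Ideal.span {X ^ b}).comap (constantCoeff (R := k⟦X⟧))

lemma mem_GI {b : ℕ} {f : k⟦X⟧⟦X⟧} : f ∈ GI k b ↔ X ^ b ∣ constantCoeff f := by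
  unfold GI
  rw [Ideal.mem_comap, Ideal.mem_span_singleton]

lemma FI_zero : FI k 0 = ⊤ := by
  rw [Ideal.eq_top_iff_one, mem_FI]
  intro i
  rw [Nat.zero_sub, pow_zero]
  exact one_dvd _

lemma GI_zero : GI k 0 = ⊤ := by
  rw [Ideal.eq_top_iff_one, mem_GI, pow_zero]
  exact one_dvd _

lemma FI_anti {a b : ℕ} (h : b ≤ a) : FI k a ≤ FI k b := fun f hf i =>
  (pow_dvd_pow X (by omega)).trans (hf i)

lemma FI_mul {a b : ℕ} {f g : k⟦X⟧⟦X⟧} (hf : f ∈ FI k a) (hg : g ∈ FI k b) :
    f * g ∈ FI k (a + b) := by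
  intro i
  rw [coeff_mul]
  apply Finset.dvd_sum
  intro p hp
  rw [Finset.HasAntidiagonal.mem_antidiagonal] at hp
  have h := mul_dvd_mul (hf p.1) (hg p.2)
  rw [← pow_add] at h
  exact (pow_dvd_pow X (by omega)).trans h

lemma FI_pow {a : ℕ} {f : k⟦X⟧⟦X⟧} (hf : f ∈ FI k a) (n : ℕ) : f ^ n ∈ FI k (a * n) := by
  induction n with
  | zero =>
    rw [mul_zero, FI_zero]
    exact Submodule.mem_top
  | succ n ih =>
    rw [pow_succ, Nat.mul_succ]
    exact FI_mul ih hf

lemma quo_FI (a : ℕ) : quo (FI k (a + 1)) X = FI k a := by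
  ext f
  rw [mem_quo, mem_FI, mem_FI]
  constructor
  · intro h i
    have h1 := h (i + 1)
    rwa [coeff_succ_X_mul, Nat.add_sub_add_right] at h1
  · intro h i
    cases i with
    | zero =>
      rw [coeff_zero_X_mul]
      exact dvd_zero _
    | succ i =>
      rw [coeff_succ_X_mul, Nat.add_sub_add_right]
      exact h i

lemma sup_FI (a : ℕ) : FI k a ⊔ Ideal.span {X} = GI k a := by
  apply le_antisymm
  · apply sup_le
    · intro f hf
      have h0 := hf 0
      rw [Nat.sub_zero, coeff_zero_eq_constantCoeff_apply] at h0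
      exact mem_GI.mpr h0
    · rw [Ideal.span_singleton_le_iff_mem, mem_GI, constantCoeff_X]
      exact dvd_zero _
  · intro f hf
    rw [mem_GI] at hf
    obtain ⟨g, hg⟩ := eq_C_add f
    rw [hg]
    refine Ideal.add_mem _ (Ideal.mem_sup_left ?_)
      (Ideal.mem_sup_right (Ideal.mul_mem_right _ _ (Ideal.mem_span_singleton_self _)))
    intro i
    rw [coeff_C]
    split_ifs with h
    · rw [h]
      exact hf
    · exact dvd_zero _

lemma quo_GI (b : ℕ) : quo (GI k (b + 1)) (C X) = GI k b := by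
  ext f
  rw [mem_quo, mem_GI, mem_GI, map_mul, constantCoeff_C, pow_succ']
  exact mul_dvd_mul_iff_left X_ne_zero

lemma sup_GI (b : ℕ) : GI k (b + 1) ⊔ Ideal.span {C X} = GI k 1 := by
  apply le_antisymm
  · apply sup_le
    · intro f hf
      rw [mem_GI] at hf ⊢
      exact (pow_dvd_pow X (by omega)).trans hf
    · rw [Ideal.span_singleton_le_iff_mem, mem_GI, constantCoeff_C, pow_one]
  · intro f hf
    rw [mem_GI, pow_one] at hf
    obtain ⟨g, hg⟩ := eq_C_add f
    obtain ⟨h, hh⟩ := hf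
    rw [hg, hh, map_mul]
    refine Ideal.add_mem _
      (Ideal.mem_sup_right (Ideal.mul_mem_right _ _ (Ideal.mem_span_singleton_self _)))
      (Ideal.mem_sup_left ?_)
    rw [mem_GI, map_mul, constantCoeff_X, zero_mul]
    exact dvd_zero _

lemma colength_maximal {R : Type} [CommRing R] {I : Ideal R} (hI : I.IsMaximal) :
    colength I = 1 := by
  unfold colength
  have : IsSimpleModule R (R ⧸ I) := isSimpleModule_iff_isCoatom.mpr (Ideal.isMaximal_def.mp hI)
  exact Module.length_eq_one R (R ⧸ I)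

lemma GI_one_maximal : (GI k 1).IsMaximal := by
  have h : GI k 1 = RingHom.ker ((constantCoeff (R := k)).comp (constantCoeff (R := k⟦X⟧))) := by
    ext f
    rw [mem_GI, pow_one, X_dvd_iff, RingHom.mem_ker, RingHom.comp_apply]
  rw [h]
  apply RingHom.ker_isMaximal_of_surjective
  intro r
  exact ⟨C (C r), by simp⟩

lemma colength_GI (b : ℕ) : colength (GI k b) = b := by
  induction b with
  | zero =>
    rw [GI_zero, colength_top]
    rfl
  | succ b ih =>
    rw [len_add (GI k (b + 1)) (C X), quo_GI, ih, sup_GI, colength_maximal GI_one_maximal, add_comm]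
    push_cast
    rfl

/-- The number `a (a + 1) / 2`. -/
def tri (a : ℕ) : ℕ := ∑ i ∈ Finset.range a, (i + 1)

lemma two_tri (a : ℕ) : 2 * tri a = a * (a + 1) := by
  unfold tri
  induction a with
  | zero => rfl
  | succ a ih =>
    rw [Finset.sum_range_succ, mul_add, ih]
    ring

lemma colength_FI (a : ℕ) : colength (FI k a) = (tri a : ℕ) := by
  induction a with
  | zero =>
    rw [FI_zero, colength_top]
    rfl
  | succ a ih =>
    rw [len_add (FI k (a + 1)) X, quo_FI, ih, sup_FI, colength_GI]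
    unfold tri
    rw [Finset.sum_range_succ]
    push_cast
    rw [add_comm]

variable (k) in
/-- The ring `R = k⟦x, y⟧`, with `x = C X` and `y = X`. -/
abbrev R2 : Type := k⟦X⟧⟦X⟧

variable (k) in
/-- The map `R → k`. -/
noncomputable def toK : R2 k →+* k := (constantCoeff (R := k)).comp (constantCoeff (R := k⟦X⟧))

lemma toK_surjective : Function.Surjective (toK k) := fun r => ⟨C (C r), by
  unfold toK
  rw [RingHom.comp_apply, constantCoeff_C, constantCoeff_C]⟩

lemma toK_y : toK k X = 0 := by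
  unfold toK
  rw [RingHom.comp_apply, constantCoeff_X, map_zero]

lemma toK_x : toK k (C X) = 0 := by
  unfold toK
  rw [RingHom.comp_apply, constantCoeff_C, constantCoeff_X]

lemma mem_max {f : R2 k} : f ∈ maximalIdeal (R2 k) ↔ toK k f = 0 := by
  rw [mem_maximalIdeal, mem_nonunits_iff, isUnit_iff_constantCoeff, isUnit_iff_constantCoeff,
    isUnit_iff_ne_zero, not_not]
  rfl

lemma FI_one : FI k 1 = maximalIdeal (R2 k) := by
  ext f
  rw [mem_max, mem_FI]
  constructor
  · intro h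
    have h0 := h 0
    rw [Nat.sub_zero, pow_one, coeff_zero_eq_constantCoeff_apply] at h0
    exact X_dvd_iff.mp h0
  · intro h i
    cases i with
    | zero =>
      rw [Nat.sub_zero, pow_one, coeff_zero_eq_constantCoeff_apply]
      exact X_dvd_iff.mpr h
    | succ i =>
      rw [Nat.sub_eq_zero_of_le (by omega), pow_zero]
      exact one_dvd _

lemma FI_eq_pow (n : ℕ) : FI k n = maximalIdeal (R2 k) ^ n := by
  induction n with
  | zero => rw [FI_zero, pow_zero, Ideal.one_eq_top]
  | succ n ih =>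
    apply le_antisymm
    · intro f hf
      obtain ⟨g, hg⟩ := eq_C_add f
      have h0 := hf 0
      rw [Nat.sub_zero, coeff_zero_eq_constantCoeff_apply] at h0
      obtain ⟨h, hh⟩ := h0
      have hX : (X : R2 k) ∈ maximalIdeal (R2 k) := mem_max.mpr toK_y
      have hCX : (C X : R2 k) ∈ maximalIdeal (R2 k) := mem_max.mpr toK_x
      rw [hg]
      apply Ideal.add_mem
      · rw [hh, map_mul, map_pow]
        exact Ideal.mul_mem_right _ _ (Ideal.pow_mem_pow hCX (n + 1))
      · rw [pow_succ', ← ih]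
        apply Ideal.mul_mem_mul hX
        intro i
        have h1 := hf (i + 1)
        rw [hg, map_add, coeff_C, if_neg (Nat.succ_ne_zero i), zero_add, coeff_succ_X_mul,
          Nat.add_sub_add_right] at h1
        exact h1
    · rw [pow_succ, Ideal.mul_le, ← ih]
      intro a ha b hb
      rw [← FI_one] at hb
      exact FI_mul ha hb

lemma colength_max_pow (n : ℕ) : colength (maximalIdeal (R2 k) ^ n) = (tri n : ℕ) := by
  rw [← FI_eq_pow, colength_FI]

/-- The ideal of series whose coefficients of `y^i`, `i < a`, are divisible by `x^b`; it is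
`(y^a, x^b)`. -/
noncomputable def BI (k : Type) [Field k] (a b : ℕ) : Ideal (R2 k) where
  carrier := {f | ∀ i, i < a → X ^ b ∣ coeff i f}
  zero_mem' := fun i _ => by
    rw [map_zero]
    exact dvd_zero _
  add_mem' := fun hf hg i hi => by
    rw [map_add]
    exact dvd_add (hf i hi) (hg i hi)
  smul_mem' := fun c f hf i hi => by
    rw [smul_eq_mul, coeff_mul]
    apply Finset.dvd_sum
    intro p hp
    rw [Finset.HasAntidiagonal.mem_antidiagonal] at hp
    exact (hf p.2 (by omega)).mul_left _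

lemma mem_BI {a b : ℕ} {f : R2 k} : f ∈ BI k a b ↔ ∀ i, i < a → X ^ b ∣ coeff i f := Iff.rfl

lemma BI_zero (b : ℕ) : BI k 0 b = ⊤ := by
  rw [Ideal.eq_top_iff_one, mem_BI]
  intro i hi
  omega

lemma quo_BI (a b : ℕ) : quo (BI k (a + 1) b) X = BI k a b := by
  ext f
  rw [mem_quo, mem_BI, mem_BI]
  constructor
  · intro h i hi
    have h1 := h (i + 1) (by omega)
    rwa [coeff_succ_X_mul] at h1
  · intro h i hi
    cases i with
    | zero =>
      rw [coeff_zero_X_mul]
      exact dvd_zero _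
    | succ i =>
      rw [coeff_succ_X_mul]
      exact h i (by omega)

lemma sup_BI (a b : ℕ) : BI k (a + 1) b ⊔ Ideal.span {X} = GI k b := by
  apply le_antisymm
  · apply sup_le
    · intro f hf
      have h0 := hf 0 (by omega)
      rw [coeff_zero_eq_constantCoeff_apply] at h0
      exact mem_GI.mpr h0
    · rw [Ideal.span_singleton_le_iff_mem, mem_GI, constantCoeff_X]
      exact dvd_zero _
  · intro f hf
    rw [mem_GI] at hf
    obtain ⟨g, hg⟩ := eq_C_add f
    rw [hg]
    refine Ideal.add_mem _ (Ideal.mem_sup_left ?_)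
      (Ideal.mem_sup_right (Ideal.mul_mem_right _ _ (Ideal.mem_span_singleton_self _)))
    intro i _
    rw [coeff_C]
    split_ifs with h
    · exact hf
    · exact dvd_zero _

lemma colength_BI (a b : ℕ) : colength (BI k a b) = (a * b : ℕ) := by
  induction a with
  | zero =>
    rw [BI_zero, colength_top, zero_mul]
    rfl
  | succ a ih =>
    rw [len_add (BI k (a + 1) b) X, quo_BI, ih, sup_BI, colength_GI, add_mul, one_mul, add_comm]
    push_cast
    rfl

lemma BI_eq (a b : ℕ) : BI k a b = Ideal.span {(C X : R2 k) ^ b, X ^ a} := by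
  apply le_antisymm
  · induction a with
    | zero =>
      rw [pow_zero]
      intro f _
      have h1 : (1 : R2 k) ∈ Ideal.span {(C X : R2 k) ^ b, 1} :=
        Ideal.subset_span (Or.inr rfl)
      have h2 := Ideal.mul_mem_left _ f h1
      rwa [mul_one] at h2
    | succ a ih =>
      intro f hf
      obtain ⟨g, hg⟩ := eq_C_add f
      have h0 := hf 0 (by omega)
      rw [coeff_zero_eq_constantCoeff_apply] at h0
      obtain ⟨h, hh⟩ := h0
      have hgm : g ∈ BI k a b := by
        intro i hi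
        have h1 := hf (i + 1) (by omega)
        rwa [hg, map_add, coeff_C, if_neg (Nat.succ_ne_zero i), zero_add, coeff_succ_X_mul] at h1
      obtain ⟨u, v, huv⟩ := Ideal.mem_span_pair.mp (ih hgm)
      rw [Ideal.mem_span_pair]
      refine ⟨C h + X * u, v, ?_⟩
      rw [hg, hh, map_mul, map_pow, ← huv]
      ring
  · rw [Ideal.span_le]
    rintro f (rfl | rfl)
    · intro i _
      rw [← map_pow, coeff_C]
      split_ifs
      · exact dvd_rfl
      · exact dvd_zero _
    · intro i hi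
      rw [coeff_X_pow, if_neg (by omega)]
      exact dvd_zero _

end Series

/-! ### F-finiteness -/

section FFinite

open PowerSeries

/-- F-finiteness, in terms of elements. -/
def FF (p : ℕ) (B : Type) [CommRing B] : Prop :=
  ∃ (n : ℕ) (b : Fin n → B), ∀ x : B, ∃ c : Fin n → B, x = ∑ i, c i ^ p * b i

variable {p : ℕ} [Fact p.Prime]

omit [Fact p.Prime] in
lemma finite_iff {A B : Type} [CommRing A] [CommRing B] (f : A →+* B) :
    f.Finite ↔ ∃ (n : ℕ) (b : Fin n → B), ∀ x : B, ∃ c : Fin n → A, x = ∑ i, f (c i) * b i := by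
  let _ := f.toAlgebra
  constructor
  · intro h
    have h1 : Module.Finite A B := h
    obtain ⟨n, b, hb⟩ := Module.Finite.exists_fin (R := A) (M := B)
    refine ⟨n, b, fun x => ?_⟩
    have hx : x ∈ Submodule.span A (Set.range b) := by rw [hb]; trivial
    obtain ⟨c, hc⟩ := (Submodule.mem_span_range_iff_exists_fun A).mp hx
    exact ⟨c, hc.symm⟩
  · rintro ⟨n, b, hb⟩
    show Module.Finite A B
    classical
    refine ⟨⟨Finset.univ.image b, ?_⟩⟩
    rw [eq_top_iff]
    intro x _
    obtain ⟨c, hc⟩ := hb x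
    have h2 : x = ∑ i, c i • b i := hc
    rw [h2]
    apply Submodule.sum_mem
    intro i _
    apply Submodule.smul_mem
    apply Submodule.subset_span
    simp

lemma ff_of_finite {B : Type} [CommRing B] [CharP B p] (h : (frobenius B p).Finite) : FF p B :=
  (finite_iff _).mp h

lemma finite_of_ff {B : Type} [CommRing B] [CharP B p] (h : FF p B) : (frobenius B p).Finite :=
  (finite_iff _).mpr h

lemma coeff_pow_p {B : Type} [CommRing B] [CharP B p] (f : B⟦X⟧) (n : ℕ) :
    coeff n (f ^ p) = if p ∣ n then coeff (n / p) f ^ p else 0 := by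
  have hp : p ≠ 0 := (Fact.out : p.Prime).ne_zero
  have h : (PowerSeries.map (frobenius B p)) (PowerSeries.expand p hp f) = f ^ p :=
    MvPowerSeries.map_frobenius_expand p hp
  rw [← h, coeff_map, coeff_expand]
  split_ifs
  · rfl
  · rw [map_zero]

lemma ff_powerSeries {B : Type} [CommRing B] [CharP B p] (h : FF p B) : FF p B⟦X⟧ := by
  obtain ⟨n, b, hb⟩ := h
  have hp : 0 < p := (Fact.out : p.Prime).pos
  have key : ∀ x : B⟦X⟧, ∃ c : Fin n × Fin p → B⟦X⟧,
      x = ∑ i, c i ^ p * (C (b i.1) * X ^ (i.2 : ℕ)) := by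
    intro x
    choose c hc using fun m : ℕ => hb (coeff m x)
    refine ⟨fun i => PowerSeries.mk fun m => c (p * m + i.2) i.1, ?_⟩
    ext m
    rw [map_sum, Fintype.sum_prod_type]
    have h1 : ∀ (i : Fin n) (j : Fin p), coeff m ((PowerSeries.mk fun m => c (p * m + j) i) ^ p *
        (C (b i) * X ^ (j : ℕ))) = if (j : ℕ) = m % p then c m i ^ p * b i else 0 := by
      intro i j
      rw [← mul_assoc, coeff_mul_X_pow', mul_comm, coeff_C_mul]
      by_cases hj : (j : ℕ) = m % p
      · have hm := Nat.div_add_mod m p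
        have h2 : m - (j : ℕ) = p * (m / p) := by omega
        rw [if_pos (by have := Nat.mod_le m p; omega), if_pos hj, h2, coeff_pow_p,
          if_pos (dvd_mul_right _ _), Nat.mul_div_cancel_left _ hp, coeff_mk, hj, hm, mul_comm]
      · rw [if_neg hj]
        by_cases hle : (j : ℕ) ≤ m
        · rw [if_pos hle, coeff_pow_p, if_neg, mul_zero]
          rintro ⟨q, hq⟩
          apply hj
          have h3 : m = p * q + j := by omega
          rw [h3, Nat.mul_add_mod, Nat.mod_eq_of_lt j.2]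
        · rw [if_neg hle]
    simp_rw [h1]
    rw [hc m]
    refine Finset.sum_congr rfl fun i _ => ?_
    rw [Finset.sum_eq_single (⟨m % p, Nat.mod_lt m hp⟩ : Fin p)]
    · rw [if_pos rfl]
    · intro j _ hj
      rw [if_neg]
      intro h
      exact hj (Fin.ext h)
    · intro h
      exact absurd (Finset.mem_univ _) h
  refine ⟨n * p, fun i => C (b (finProdFinEquiv.symm i).1) * X ^ ((finProdFinEquiv.symm i).2 : ℕ),
    fun x => ?_⟩
  obtain ⟨c, hc⟩ := key x
  refine ⟨fun i => c (finProdFinEquiv.symm i), ?_⟩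
  rw [hc]
  exact (Equiv.sum_comp finProdFinEquiv.symm fun i => c i ^ p * (C (b i.1) * X ^ (i.2 : ℕ))).symm

omit [Fact p.Prime] in
lemma charP_powerSeries (B : Type) [CommRing B] [CharP B p] : CharP B⟦X⟧ p :=
  charP_of_injective_ringHom (f := (C : B →+* B⟦X⟧)) C_injective p

instance charP_R2 (k : Type) [Field k] [CharP k p] : CharP (R2 k) p := by
  have h1 := charP_powerSeries (p := p) k
  exact charP_powerSeries (p := p) k⟦X⟧

lemma ff_R2 {k : Type} [Field k] [CharP k p] (hk : (frobenius k p).Finite) : FF p (R2 k) := by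
  have h1 := charP_powerSeries (p := p) k
  exact ff_powerSeries (ff_powerSeries (ff_of_finite hk))

end FFinite

/-! ### The ring `A = R[z]/(z^Q - f)` -/

section Adjoin

variable {R : Type} [CommRing R] [Nontrivial R] (f : R) (Q : ℕ)

/-- The ring `R[z]/(z^Q - f)`. -/
abbrev AA : Type := AdjoinRoot (Polynomial.X ^ Q - Polynomial.C f)

/-- The element `z`. -/
noncomputable abbrev zz : AA f Q := AdjoinRoot.root (Polynomial.X ^ Q - Polynomial.C f)

omit [Nontrivial R] in
lemma zz_pow : zz f Q ^ Q = algebraMap R (AA f Q) f := by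
  have h := AdjoinRoot.eval₂_root (Polynomial.X ^ Q - Polynomial.C f)
  rw [Polynomial.eval₂_sub, Polynomial.eval₂_pow, Polynomial.eval₂_X, Polynomial.eval₂_C,
    sub_eq_zero] at h
  exact h

/-- The basis `1, z, …, z^(Q-1)`. -/
noncomputable def bas (hQ : Q ≠ 0) : Module.Basis (Fin Q) R (AA f Q) :=
  (AdjoinRoot.powerBasis' (Polynomial.monic_X_pow_sub_C f hQ)).basis.reindex
    (finCongr (by rw [AdjoinRoot.powerBasis'_dim, Polynomial.natDegree_X_pow_sub_C]))

lemma bas_apply (hQ : Q ≠ 0) (i : Fin Q) : bas f Q hQ i = zz f Q ^ (i : ℕ) := by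
  unfold bas
  rw [Module.Basis.reindex_apply, PowerBasis.coe_basis]
  rfl

/-- Coordinates. -/
noncomputable def ee (hQ : Q ≠ 0) : AA f Q ≃ₗ[R] (Fin Q → R) := (bas f Q hQ).equivFun

lemma sum_ee (hQ : Q ≠ 0) (a : AA f Q) :
    a = ∑ i, algebraMap R (AA f Q) (ee f Q hQ a i) * zz f Q ^ (i : ℕ) := by
  have h := (bas f Q hQ).sum_equivFun a
  conv_lhs => rw [← h]
  refine Finset.sum_congr rfl fun i _ => ?_
  rw [bas_apply, Algebra.smul_def]
  rfl

lemma ee_zz_pow (hQ : Q ≠ 0) (i j : Fin Q) : ee f Q hQ (zz f Q ^ (i : ℕ)) j = if i = j then 1 else 0 := by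
  rw [← bas_apply f Q hQ]
  unfold ee
  rw [Module.Basis.equivFun_self]

lemma ee_algebraMap_mul (hQ : Q ≠ 0) (r : R) (a : AA f Q) (j : Fin Q) :
    ee f Q hQ (algebraMap R (AA f Q) r * a) j = r * ee f Q hQ a j := by
  rw [← Algebra.smul_def, map_smul]
  rfl

lemma algebraMap_injective' (hQ : Q ≠ 0) : Function.Injective (algebraMap R (AA f Q)) := by
  intro a b hab
  have h1 := ee_algebraMap_mul f Q hQ a 1 ⟨0, Nat.pos_of_ne_zero hQ⟩
  have h2 := ee_algebraMap_mul f Q hQ b 1 ⟨0, Nat.pos_of_ne_zero hQ⟩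
  have h3 := ee_zz_pow f Q hQ ⟨0, Nat.pos_of_ne_zero hQ⟩ ⟨0, Nat.pos_of_ne_zero hQ⟩
  rw [if_pos rfl, pow_zero] at h3
  rw [mul_one, h3] at h1 h2
  have h4 : a * 1 = b * 1 := by rw [← h1, ← h2, hab]
  rwa [mul_one, mul_one] at h4

/-- Every element is `r + z b`. -/
lemma exists_decomp (hQ : Q ≠ 0) (a : AA f Q) :
    ∃ (r : R) (b : AA f Q), a = algebraMap R (AA f Q) r + zz f Q * b := by
  have h := sum_ee f Q hQ a
  obtain ⟨q, rfl⟩ := Nat.exists_eq_succ_of_ne_zero hQ
  rw [Fin.sum_univ_succ] at h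
  refine ⟨ee f (q + 1) hQ a 0, ∑ i : Fin q, algebraMap R (AA f (q + 1)) (ee f (q + 1) hQ a i.succ) *
    zz f (q + 1) ^ (i : ℕ), ?_⟩
  conv_lhs => rw [h]
  congr 1
  · simp
  · rw [Finset.mul_sum]
    refine Finset.sum_congr rfl fun i _ => ?_
    have e : ∀ (z c : AA f (q + 1)) (i : ℕ), c * z ^ (i + 1) = z * (c * z ^ i) := by
      intro z c i
      ring
    exact e _ _ _

end Adjoin

/-! ### The example: local ring, dimension, Gorenstein -/

section Example

variable (k : Type) [Field k] (Q : ℕ) [NeZero Q]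

/-- The element `x ∈ k⟦x, y⟧`. -/
noncomputable abbrev xx : R2 k := PowerSeries.C PowerSeries.X

/-- The element `y ∈ k⟦x, y⟧`. -/
noncomputable abbrev yy : R2 k := PowerSeries.X

/-- The element `f = x^Q y`. -/
noncomputable def fQ (k : Type) [Field k] (Q : ℕ) : R2 k := xx k ^ Q * yy k

/-- The ring `k⟦x, y⟧[z]/(z^Q - x^Q y)`. -/
abbrev BB (k : Type) [Field k] (Q : ℕ) : Type := AA (fQ k Q) Q

instance : Module.Finite (R2 k) (BB k Q) := Module.Finite.of_basis (bas (fQ k Q) Q (NeZero.ne Q))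

instance : Nontrivial (BB k Q) := (algebraMap_injective' (fQ k Q) Q (NeZero.ne Q)).nontrivial

omit [NeZero Q] in
lemma toK_f : toK k (fQ k Q) = 0 := by
  unfold fQ
  rw [map_mul, toK_y, mul_zero]

/-- The map `A → k`. -/
noncomputable def pi0 : BB k Q →+* k := AdjoinRoot.lift (toK k) 0 (by
  rw [Polynomial.eval₂_sub, Polynomial.eval₂_pow, Polynomial.eval₂_X, Polynomial.eval₂_C, toK_f,
    zero_pow (NeZero.ne Q), sub_zero])

lemma pi0_algebraMap (r : R2 k) : pi0 k Q (algebraMap (R2 k) (BB k Q) r) = toK k r :=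
  AdjoinRoot.lift_of _

lemma pi0_zz : pi0 k Q (zz (fQ k Q) Q) = 0 := AdjoinRoot.lift_root _

lemma pi0_surjective : Function.Surjective (pi0 k Q) := fun c => by
  obtain ⟨r, hr⟩ := toK_surjective c
  exact ⟨algebraMap _ _ r, by rw [pi0_algebraMap, hr]⟩

/-- The ideal `(x, y) A`. -/
noncomputable abbrev mR : Ideal (BB k Q) := (maximalIdeal (R2 k)).map (algebraMap (R2 k) (BB k Q))

lemma ker_pi0 : RingHom.ker (pi0 k Q) = mR k Q ⊔ Ideal.span {zz (fQ k Q) Q} := by
  apply le_antisymm
  · intro a ha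
    obtain ⟨r, b, rfl⟩ := exists_decomp (fQ k Q) Q (NeZero.ne Q) a
    rw [RingHom.mem_ker, map_add, map_mul, pi0_zz, zero_mul, add_zero, pi0_algebraMap] at ha
    exact Ideal.add_mem _ (Ideal.mem_sup_left (Ideal.mem_map_of_mem _ (mem_max.mpr ha)))
      (Ideal.mem_sup_right (Ideal.mul_mem_right _ _ (Ideal.mem_span_singleton_self _)))
  · apply sup_le
    · rw [Ideal.map_le_iff_le_comap]
      intro r hr
      rw [Ideal.mem_comap, RingHom.mem_ker, pi0_algebraMap]
      exact mem_max.mp hr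
    · rw [Ideal.span_singleton_le_iff_mem, RingHom.mem_ker, pi0_zz]

lemma ker_isMaximal : (RingHom.ker (pi0 k Q)).IsMaximal :=
  RingHom.ker_isMaximal_of_surjective _ (pi0_surjective k Q)

instance instLocalBB : IsLocalRing (BB k Q) := by
  apply IsLocalRing.of_unique_max_ideal
  refine ⟨RingHom.ker (pi0 k Q), ker_isMaximal k Q, ?_⟩
  intro M hM
  have h1 : (M.comap (algebraMap (R2 k) (BB k Q))).IsMaximal :=
    Ideal.isMaximal_comap_of_isIntegral_of_isMaximal M
  have h2 : M.comap (algebraMap (R2 k) (BB k Q)) = maximalIdeal (R2 k) := eq_maximalIdeal h1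
  have h3 : mR k Q ≤ M := by
    rw [Ideal.map_le_iff_le_comap, h2]
  have h4 : zz (fQ k Q) Q ∈ M := by
    apply hM.isPrime.mem_of_pow_mem Q
    rw [zz_pow]
    exact h3 (Ideal.mem_map_of_mem _ (mem_max.mpr (toK_f k Q)))
  have h5 : RingHom.ker (pi0 k Q) ≤ M := by
    rw [ker_pi0]
    exact sup_le h3 ((Ideal.span_singleton_le_iff_mem _).mpr h4)
  exact ((ker_isMaximal k Q).eq_of_le hM.ne_top h5).symm

lemma max_eq : maximalIdeal (BB k Q) = RingHom.ker (pi0 k Q) := (eq_maximalIdeal (ker_isMaximal k Q)).symm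

lemma max_eq' : maximalIdeal (BB k Q) = mR k Q ⊔ Ideal.span {zz (fQ k Q) Q} := by
  rw [max_eq, ker_pi0]

lemma residue_aux (a : BB k Q) : ∃ r : R2 k, a - algebraMap (R2 k) (BB k Q) r ∈ maximalIdeal (BB k Q) := by
  obtain ⟨r, b, rfl⟩ := exists_decomp (fQ k Q) Q (NeZero.ne Q) a
  refine ⟨r, ?_⟩
  rw [add_sub_cancel_left, max_eq, RingHom.mem_ker, map_mul, pi0_zz, zero_mul]

instance charP_BB (p : ℕ) [Fact p.Prime] [CharP k p] : CharP (BB k Q) p :=
  charP_of_injective_ringHom (algebraMap_injective' (fQ k Q) Q (NeZero.ne Q)) p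

lemma ffinite (p : ℕ) [Fact p.Prime] [CharP k p] (hk : (frobenius k p).Finite) :
    (frobenius (BB k Q) p).Finite := by
  have h1 : (frobenius (R2 k) p).Finite := finite_of_ff (ff_R2 hk)
  have h2 : (algebraMap (R2 k) (BB k Q)).Finite := by
    rw [RingHom.finite_algebraMap]
    infer_instance
  have h3 : ((frobenius (BB k Q) p).comp (algebraMap (R2 k) (BB k Q))).Finite := by
    have e : (frobenius (BB k Q) p).comp (algebraMap (R2 k) (BB k Q)) =
        (algebraMap (R2 k) (BB k Q)).comp (frobenius (R2 k) p) := by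
      ext r
      simp [frobenius_def]
    rw [e]
    exact h2.comp h1
  exact RingHom.Finite.of_comp_finite h3

/-! ### Lengths in `A` -/

lemma mR_le : mR k Q ≤ maximalIdeal (BB k Q) := by
  rw [max_eq']
  exact le_sup_left

lemma zz_mem : zz (fQ k Q) Q ∈ maximalIdeal (BB k Q) := by
  rw [max_eq, RingHom.mem_ker, pi0_zz]

lemma rad_eq {J : Ideal (BB k Q)} {n : ℕ} (h1 : mR k Q ^ n ≤ J) (h2 : J ≤ maximalIdeal (BB k Q)) :
    J.radical = maximalIdeal (BB k Q) := by
  apply le_antisymm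
  · exact (maximalIdeal.isMaximal (BB k Q)).isPrime.radical_le_iff.mpr h2
  · have h3 : mR k Q ≤ J.radical := by
      intro a ha
      exact ⟨n, h1 (Ideal.pow_mem_pow ha n)⟩
    rw [max_eq']
    apply sup_le h3
    rw [Ideal.span_singleton_le_iff_mem]
    have h4 : zz (fQ k Q) Q ^ Q ∈ J.radical := by
      rw [zz_pow]
      exact h3 (Ideal.mem_map_of_mem _ (mem_max.mpr (toK_f k Q)))
    have h5 : zz (fQ k Q) Q ∈ J.radical.radical := ⟨Q, h4⟩
    rwa [Ideal.radical_idem] at h5

lemma colength_map' {I : Ideal (R2 k)} {n : ℕ} (h1 : maximalIdeal (R2 k) ^ n ≤ I)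
    (h2 : I ≤ maximalIdeal (R2 k)) :
    colength (I.map (algebraMap (R2 k) (BB k Q))) = Q * colength I := by
  apply colength_map (ee (fQ k Q) Q (NeZero.ne Q)) (residue_aux k Q)
  apply isFiniteLength_quot
  apply rad_eq k Q (n := n)
  · rw [← Ideal.map_pow]
    exact Ideal.map_mono h1
  · exact (Ideal.map_mono h2).trans (mR_le k Q)

/-! ### The regular sequence `x, y` -/

omit [NeZero Q] in
lemma reg_aux {g c : R2 k} (h : yy k * g = xx k * c) : ∃ c', g = xx k * c' := by
  have h1 := congrArg (PowerSeries.constantCoeff (R := PowerSeries k)) h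
  rw [map_mul, map_mul, PowerSeries.constantCoeff_X, zero_mul, PowerSeries.constantCoeff_C] at h1
  have h2 : PowerSeries.constantCoeff c = 0 := (mul_eq_zero.mp h1.symm).resolve_left
    PowerSeries.X_ne_zero
  obtain ⟨c', rfl⟩ := PowerSeries.X_dvd_iff.mpr h2
  refine ⟨c', ?_⟩
  have h3 : yy k * g = yy k * (xx k * c') := by rw [h]; ring
  exact mul_left_cancel₀ PowerSeries.X_ne_zero h3

omit [NeZero Q] in
lemma xx_ne_zero : xx k ≠ 0 := by
  intro h
  have := PowerSeries.C_injective (h.trans (map_zero _).symm)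
  exact PowerSeries.X_ne_zero this

/-- The images of `x` and `y` in `A`. -/
noncomputable abbrev xA : BB k Q := algebraMap (R2 k) (BB k Q) (xx k)

/-- The image of `y` in `A`. -/
noncomputable abbrev yA : BB k Q := algebraMap (R2 k) (BB k Q) (yy k)

lemma xA_reg {a : BB k Q} (h : xA k Q * a = 0) : a = 0 := by
  apply (ee (fQ k Q) Q (NeZero.ne Q)).injective
  funext j
  have h1 := ee_algebraMap_mul (fQ k Q) Q (NeZero.ne Q) (xx k) a j
  rw [h, map_zero, Pi.zero_apply] at h1
  rw [map_zero, Pi.zero_apply]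
  exact (mul_eq_zero.mp h1.symm).resolve_left (xx_ne_zero k)

lemma yA_reg {a b : BB k Q} (h : yA k Q * a = xA k Q * b) : ∃ c, a = xA k Q * c := by
  have h1 : ∀ j, ∃ c, ee (fQ k Q) Q (NeZero.ne Q) a j = xx k * c := by
    intro j
    apply reg_aux k (c := ee (fQ k Q) Q (NeZero.ne Q) b j)
    rw [← ee_algebraMap_mul, ← ee_algebraMap_mul, h]
  choose c hc using h1
  refine ⟨∑ i, algebraMap (R2 k) (BB k Q) (c i) * zz (fQ k Q) Q ^ (i : ℕ), ?_⟩
  conv_lhs => rw [sum_ee (fQ k Q) Q (NeZero.ne Q) a]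
  rw [Finset.mul_sum]
  refine Finset.sum_congr rfl fun i _ => ?_
  rw [hc, map_mul, mul_assoc]

lemma weaklyRegular_pair {A : Type} [CommRing A] {x y : A} (hx : ∀ a, x * a = 0 → a = 0)
    (hy : ∀ a b, y * a = x * b → ∃ c, a = x * c) : RingTheory.Sequence.IsWeaklyRegular A [x, y] := by
  rw [RingTheory.Sequence.isWeaklyRegular_cons_iff, RingTheory.Sequence.isWeaklyRegular_singleton_iff]
  refine ⟨?_, ?_⟩
  · intro a b hab
    have h : x * (a - b) = 0 := by
      rw [mul_sub, sub_eq_zero]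
      exact hab
    exact sub_eq_zero.mp (hx _ h)
  · intro p q hpq
    obtain ⟨a, rfl⟩ := Submodule.Quotient.mk_surjective _ p
    obtain ⟨b, rfl⟩ := Submodule.Quotient.mk_surjective _ q
    have h1 : (Submodule.Quotient.mk (y * a) : QuotSMulTop x A) = Submodule.Quotient.mk (y * b) := hpq
    rw [Submodule.Quotient.eq, Submodule.mem_smul_pointwise_iff_exists] at h1
    obtain ⟨c, -, hc⟩ := h1
    rw [Submodule.Quotient.eq, Submodule.mem_smul_pointwise_iff_exists]
    obtain ⟨d, hd⟩ := hy (a - b) c (by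
      rw [mul_sub, ← hc]
      rfl)
    exact ⟨d, trivial, hd.symm⟩

lemma isRegular : RingTheory.Sequence.IsRegular (BB k Q) [xA k Q, yA k Q] := by
  apply RingTheory.Sequence.IsRegular.of_isWeaklyRegular_of_mem_maximalIdeal
  · intro r hr
    rw [List.mem_pair] at hr
    rcases hr with rfl | rfl
    · exact mR_le k Q (Ideal.mem_map_of_mem _ (mem_max.mpr toK_x))
    · exact mR_le k Q (Ideal.mem_map_of_mem _ (mem_max.mpr toK_y))
  · exact weaklyRegular_pair (fun a h => xA_reg k Q h) (fun a b h => yA_reg k Q h)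

/-! ### Dimension and Gorenstein property -/

omit [NeZero Q] in
lemma max_R2 : maximalIdeal (R2 k) = Ideal.span {xx k, yy k} := by
  apply le_antisymm
  · intro f hf
    obtain ⟨g, hg⟩ := eq_C_add f
    have h1 : PowerSeries.X ∣ PowerSeries.constantCoeff f := PowerSeries.X_dvd_iff.mpr (mem_max.mp hf)
    obtain ⟨h, hh⟩ := h1
    rw [Ideal.mem_span_pair]
    refine ⟨PowerSeries.C h, g, ?_⟩
    rw [hg, hh, map_mul]
    ring
  · rw [Ideal.span_le]
    rintro f (rfl | rfl)
    · exact mem_max.mpr toK_x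
    · exact mem_max.mpr toK_y

omit [NeZero Q] in
lemma mR_eq : mR k Q = Ideal.span {xA k Q, yA k Q} := by
  unfold mR
  rw [max_R2, Ideal.map_span, Set.image_pair]

omit [NeZero Q] in
lemma ofList_eq : Ideal.ofList [xA k Q, yA k Q] = mR k Q := by
  rw [mR_eq, Ideal.ofList]
  congr 1
  ext r
  simp

lemma mem_mR {a : BB k Q} : a ∈ mR k Q ↔ ∀ i, ee (fQ k Q) Q (NeZero.ne Q) a i ∈ maximalIdeal (R2 k) :=
  mem_map_iff _ _ _

lemma dim_BB : dimN (BB k Q) = 2 := by
  have h1 := ringKrullDim_add_length_eq_ringKrullDim_of_isRegular _ (isRegular k Q)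
  rw [ofList_eq] at h1
  have hfin : IsFiniteLength (BB k Q) (BB k Q ⧸ mR k Q) := by
    apply isFiniteLength_quot
    exact rad_eq k Q (n := 1) (by rw [pow_one]) (mR_le k Q)
  have hart : IsArtinian (BB k Q) (BB k Q ⧸ mR k Q) :=
    (isFiniteLength_iff_isNoetherian_isArtinian.mp hfin).2
  have hart' : IsArtinianRing (BB k Q ⧸ mR k Q) := isArtinian_of_tower (BB k Q) hart
  have hne : mR k Q ≠ ⊤ := fun h =>
    (maximalIdeal.isMaximal (BB k Q)).ne_top (top_le_iff.mp (h ▸ mR_le k Q))
  have hnt : Nontrivial (BB k Q ⧸ mR k Q) := Ideal.Quotient.nontrivial_iff.mpr hne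
  have h0 : ringKrullDim (BB k Q ⧸ mR k Q) = 0 :=
    ringKrullDimZero_iff_ringKrullDim_eq_zero.mp inferInstance
  rw [h0, zero_add] at h1
  unfold dimN
  rw [← h1]
  rfl

omit [NeZero Q] in
lemma zz_pow_mem_mR {n : ℕ} (h : Q ≤ n) : zz (fQ k Q) Q ^ n ∈ mR k Q := by
  obtain ⟨m, rfl⟩ := Nat.exists_eq_add_of_le h
  rw [pow_add, zz_pow]
  exact Ideal.mul_mem_right _ _ (Ideal.mem_map_of_mem _ (mem_max.mpr (toK_f k Q)))

lemma zz_pow_notMem_mR {n : ℕ} (h : n < Q) : zz (fQ k Q) Q ^ n ∉ mR k Q := by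
  intro hz
  have h1 := (mem_mR k Q).mp hz ⟨n, h⟩
  rw [ee_zz_pow (fQ k Q) Q (NeZero.ne Q) ⟨n, h⟩ ⟨n, h⟩, if_pos rfl] at h1
  exact (Ideal.ne_top_iff_one _).mp (maximalIdeal.isMaximal (R2 k)).ne_top h1

lemma socle_mem {J : Ideal (BB k Q)} (hJ : mR k Q < J) : zz (fQ k Q) Q ^ (Q - 1) ∈ J := by
  obtain ⟨hle, a, haJ, ha⟩ := SetLike.lt_iff_le_and_exists.mp hJ
  rw [mem_mR] at ha
  push Not at ha
  have hex : ∃ n : ℕ, ∃ h : n < Q, ee (fQ k Q) Q (NeZero.ne Q) a ⟨n, h⟩ ∉ maximalIdeal (R2 k) := by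
    obtain ⟨i, hi⟩ := ha
    exact ⟨i, i.2, hi⟩
  classical
  obtain ⟨h0, hn⟩ := Nat.find_spec hex
  have hmin : ∀ m, m < Nat.find hex → ∀ h : m < Q,
      ee (fQ k Q) Q (NeZero.ne Q) a ⟨m, h⟩ ∈ maximalIdeal (R2 k) := by
    intro m hm h
    by_contra hcon
    exact Nat.find_min hex hm ⟨h, hcon⟩
  generalize Nat.find hex = n at h0 hn hmin
  have h1 : a * zz (fQ k Q) Q ^ (Q - 1 - n) ∈ J := Ideal.mul_mem_right _ _ haJ
  have h2 : a * zz (fQ k Q) Q ^ (Q - 1 - n) = ∑ i, algebraMap (R2 k) (BB k Q)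
      (ee (fQ k Q) Q (NeZero.ne Q) a i) * zz (fQ k Q) Q ^ ((i : ℕ) + (Q - 1 - n)) := by
    conv_lhs => rw [sum_ee (fQ k Q) Q (NeZero.ne Q) a]
    rw [Finset.sum_mul]
    refine Finset.sum_congr rfl fun i _ => ?_
    rw [mul_assoc, ← pow_add]
  have h3 : algebraMap (R2 k) (BB k Q) (ee (fQ k Q) Q (NeZero.ne Q) a ⟨n, h0⟩) *
      zz (fQ k Q) Q ^ (n + (Q - 1 - n)) ∈ J := by
    rw [h2, ← Finset.add_sum_erase _ _ (Finset.mem_univ (⟨n, h0⟩ : Fin Q))] at h1
    refine (Ideal.add_mem_iff_left _ ?_).mp h1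
    apply Ideal.sum_mem
    intro i hi
    rw [Finset.mem_erase] at hi
    apply hle
    rcases lt_trichotomy (i : ℕ) n with h | h | h
    · exact Ideal.mul_mem_right _ _ (Ideal.mem_map_of_mem _ (hmin i h i.2))
    · exact absurd (Fin.ext h) hi.1
    · exact Ideal.mul_mem_left _ _ (zz_pow_mem_mR k Q (by omega))
  rw [show n + (Q - 1 - n) = Q - 1 by omega] at h3
  have hu : IsUnit (ee (fQ k Q) Q (NeZero.ne Q) a ⟨n, h0⟩) := by
    by_contra h
    exact hn ((mem_maximalIdeal _).mpr h)
  obtain ⟨w, hw⟩ := (hu.map (algebraMap (R2 k) (BB k Q))).exists_left_inv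
  have h4 := Ideal.mul_mem_left _ w h3
  rwa [← mul_assoc, hw, one_mul] at h4

lemma infIrred : InfIrred (mR k Q) := by
  have hQ : 0 < Q := Nat.pos_of_ne_zero (NeZero.ne Q)
  refine ⟨?_, ?_⟩
  · intro h
    have h1 : mR k Q = ⊤ := isMax_iff_eq_top.mp h
    exact (maximalIdeal.isMaximal (BB k Q)).ne_top (top_le_iff.mp (h1 ▸ mR_le k Q))
  · intro b c hbc
    by_contra hcon
    push Not at hcon
    have hb : mR k Q < b := lt_of_le_of_ne (hbc ▸ inf_le_left) (Ne.symm hcon.1)
    have hc : mR k Q < c := lt_of_le_of_ne (hbc ▸ inf_le_right) (Ne.symm hcon.2)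
    have h1 : zz (fQ k Q) Q ^ (Q - 1) ∈ b ⊓ c := ⟨socle_mem k Q hb, socle_mem k Q hc⟩
    rw [hbc] at h1
    exact zz_pow_notMem_mR k Q (by omega) h1

lemma gor : Gor (BB k Q) := by
  refine ⟨[xA k Q, yA k Q], ?_, isRegular k Q, ?_, ?_⟩
  · intro r hr
    rw [List.mem_pair] at hr
    rcases hr with rfl | rfl
    · exact mR_le k Q (Ideal.mem_map_of_mem _ (mem_max.mpr toK_x))
    · exact mR_le k Q (Ideal.mem_map_of_mem _ (mem_max.mpr toK_y))
  · rw [dim_BB]
    rfl
  · have h : Ideal.span {r : BB k Q | r ∈ [xA k Q, yA k Q]} = mR k Q := ofList_eq k Q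
    rw [h]
    exact infIrred k Q

/-! ### Hilbert–Kunz multiplicity -/

omit [NeZero Q] in
lemma zz_pow_mul (q : ℕ) : zz (fQ k Q) Q ^ (Q * q) = xA k Q ^ (Q * q) * yA k Q ^ q := by
  have e : fQ k Q ^ q = xx k ^ (Q * q) * yy k ^ q := by
    unfold fQ
    rw [mul_pow, pow_mul]
  rw [pow_mul, zz_pow, ← map_pow, e, map_mul, map_pow, map_pow]

lemma bracket_eq (p : ℕ) [Fact p.Prime] [CharP k p] {e r : ℕ} (hr : p ^ e = Q * r) :
    bracket (maximalIdeal (BB k Q)) (p ^ e) =
      (BI k (p ^ e) (p ^ e)).map (algebraMap (R2 k) (BB k Q)) := by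
  rw [BI_eq, Ideal.map_span, Set.image_pair, map_pow, map_pow]
  apply le_antisymm
  · unfold bracket
    rw [Ideal.span_le]
    rintro b ⟨a, ha, rfl⟩
    rw [max_eq', mR_eq] at ha
    obtain ⟨a1, ha1, a2, ha2, rfl⟩ := Submodule.mem_sup.mp ha
    obtain ⟨u, v, rfl⟩ := Ideal.mem_span_pair.mp ha1
    obtain ⟨w, rfl⟩ := Ideal.mem_span_singleton.mp ha2
    have h1 : (u * xA k Q + v * yA k Q + zz (fQ k Q) Q * w) ^ (p ^ e) =
        (u ^ (p ^ e) + yA k Q ^ r * w ^ (p ^ e)) * xA k Q ^ (p ^ e) + v ^ (p ^ e) * yA k Q ^ (p ^ e) := by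
      rw [add_pow_char_pow, add_pow_char_pow, mul_pow, mul_pow, mul_pow]
      have h2 : zz (fQ k Q) Q ^ (p ^ e) = xA k Q ^ (p ^ e) * yA k Q ^ r := by
        rw [hr, zz_pow_mul]
      rw [h2]
      ring
    rw [h1]
    exact Ideal.add_mem _ (Ideal.mul_mem_left _ _ (Ideal.subset_span (Or.inl rfl)))
      (Ideal.mul_mem_left _ _ (Ideal.subset_span (Or.inr rfl)))
  · rw [Ideal.span_le]
    rintro b (rfl | rfl)
    · exact Ideal.subset_span ⟨_, mR_le k Q (Ideal.mem_map_of_mem _ (mem_max.mpr toK_x)), rfl⟩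
    · exact Ideal.subset_span ⟨_, mR_le k Q (Ideal.mem_map_of_mem _ (mem_max.mpr toK_y)), rfl⟩

omit [NeZero Q] in
lemma BI_bounds {q : ℕ} (hq : 1 ≤ q) :
    maximalIdeal (R2 k) ^ (2 * q) ≤ BI k q q ∧ BI k q q ≤ maximalIdeal (R2 k) := by
  constructor
  · rw [← FI_eq_pow]
    intro f hf i hi
    exact (pow_dvd_pow PowerSeries.X (by omega)).trans (hf i)
  · rw [BI_eq, Ideal.span_le]
    rintro f (rfl | rfl)
    · exact Ideal.pow_mem_of_mem _ (mem_max.mpr toK_x) _ hq
    · exact Ideal.pow_mem_of_mem _ (mem_max.mpr toK_y) _ hq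

lemma len_bracket (p : ℕ) [Fact p.Prime] [CharP k p] {e r : ℕ} (hr : p ^ e = Q * r) :
    len (bracket (maximalIdeal (BB k Q)) (p ^ e)) = Q * ((p : ℝ) ^ e) ^ 2 := by
  have hq : 1 ≤ p ^ e := Nat.one_le_pow _ _ (Fact.out : p.Prime).pos
  have h := BI_bounds k hq
  unfold len
  rw [bracket_eq k Q p hr, colength_map' k Q h.1 h.2, colength_BI]
  have h1 : ((Q : ℕ∞) * ((p ^ e * p ^ e : ℕ) : ℕ∞)).toNat = Q * (p ^ e * p ^ e) := by
    rw [← Nat.cast_mul, ENat.toNat_natCast]
  rw [h1]
  push_cast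
  ring

lemma isHK (p : ℕ) [Fact p.Prime] [CharP k p] {m : ℕ} (hQ : Q = p ^ m) : IsHK p (BB k Q) Q := by
  unfold IsHK
  rw [dim_BB]
  apply tendsto_const_nhds.congr'
  filter_upwards [eventually_ge_atTop m] with e he
  rw [len_bracket k Q p (r := p ^ (e - m)) (by rw [hQ, ← pow_add, Nat.add_sub_cancel' he])]
  have hp : (0 : ℝ) < p := by exact_mod_cast (Fact.out : p.Prime).pos
  field_simp

/-! ### F-signature -/

lemma freeRank_eq_zero (p : ℕ) (hQ1 : 1 < Q) {e r : ℕ} (hr : p ^ e = Q * r) :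
    freeRank p (BB k Q) e = 0 := by
  unfold freeRank
  rw [← Nat.le_zero]
  apply csSup_le'
  rintro n ⟨φ, hφ, hs⟩
  by_contra hn
  have hn' : 0 < n := by omega
  obtain ⟨c, hc⟩ := hs (Pi.single ⟨0, hn'⟩ 1)
  have h1 := hφ (zz (fQ k Q) Q) c
  have h2 := hφ (xA k Q) (yA k Q ^ r * c)
  have h3 : zz (fQ k Q) Q ^ p ^ e * c = xA k Q ^ p ^ e * (yA k Q ^ r * c) := by
    rw [hr, zz_pow_mul]
    ring
  rw [h3, h2, hc] at h1
  have h4 := congrFun h1 ⟨0, hn'⟩
  rw [Pi.smul_apply, Pi.smul_apply, Pi.single_eq_same, smul_eq_mul, smul_eq_mul, mul_one] at h4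
  have h5 : zz (fQ k Q) Q ^ 1 ∈ mR k Q := by
    rw [pow_one, ← h4]
    exact Ideal.mul_mem_right _ _ (Ideal.mem_map_of_mem _ (mem_max.mpr toK_x))
  exact zz_pow_notMem_mR k Q hQ1 h5

lemma isFSig (p : ℕ) {m : ℕ} (hQ : Q = p ^ m) (hQ1 : 1 < Q) : IsFSig p (BB k Q) 0 := by
  unfold IsFSig
  apply tendsto_const_nhds.congr'
  filter_upwards [eventually_ge_atTop m] with e he
  rw [freeRank_eq_zero k Q p hQ1 (r := p ^ (e - m)) (by rw [hQ, ← pow_add, Nat.add_sub_cancel' he])]
  rw [Nat.cast_zero, zero_div]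

/-! ### Hilbert–Samuel multiplicity -/

omit [NeZero Q] in
lemma sup_pow_le' {A : Type} [CommRing A] (I J : Ideal A) (q : ℕ) :
    (I ⊔ J) ^ (q + 1) ≤ I * (I ⊔ J) ^ q ⊔ J ^ (q + 1) := by
  induction q with
  | zero => simp
  | succ q ih =>
    have h1 : (I ⊔ J) ^ (q + 1 + 1) = I * (I ⊔ J) ^ (q + 1) ⊔ J * (I ⊔ J) ^ (q + 1) := by
      rw [pow_succ' _ (q + 1), Ideal.sup_mul]
    rw [h1]
    apply sup_le le_sup_left
    refine (Ideal.mul_mono_right ih).trans ?_
    rw [Ideal.mul_sup, ← pow_succ']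
    refine sup_le (le_sup_of_le_left ?_) le_sup_right
    rw [mul_left_comm]
    refine Ideal.mul_mono_right ?_
    rw [pow_succ']
    exact Ideal.mul_mono_left le_sup_right

omit [NeZero Q] in
lemma f_mem : fQ k Q ∈ maximalIdeal (R2 k) ^ Q :=
  Ideal.mul_mem_right _ _ (Ideal.pow_mem_pow (mem_max.mpr toK_x) Q)

lemma max_pow_le (N : ℕ) : maximalIdeal (BB k Q) ^ (N + (Q - 1)) ≤ mR k Q ^ N := by
  have hQ : 0 < Q := Nat.pos_of_ne_zero (NeZero.ne Q)
  have h1 : maximalIdeal (BB k Q) ^ Q ≤ mR k Q * maximalIdeal (BB k Q) ^ (Q - 1) := by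
    obtain ⟨q, hq⟩ := Nat.exists_eq_succ_of_ne_zero hQ.ne'
    have h2 := sup_pow_le' (mR k Q) (Ideal.span {zz (fQ k Q) Q}) (Q - 1)
    rw [← max_eq', Nat.sub_add_cancel hQ] at h2
    refine h2.trans (sup_le le_rfl ?_)
    rw [Ideal.span_singleton_pow, Ideal.span_singleton_le_iff_mem, zz_pow]
    have h3 : algebraMap (R2 k) (BB k Q) (fQ k Q) ∈ mR k Q ^ Q := by
      rw [← Ideal.map_pow]
      exact Ideal.mem_map_of_mem _ (f_mem k Q)
    have h4 : mR k Q ^ Q = mR k Q * mR k Q ^ (Q - 1) := by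
      rw [← pow_succ', Nat.sub_add_cancel hQ]
    rw [h4] at h3
    exact Ideal.mul_mono_right (Ideal.pow_right_mono (mR_le k Q) _) h3
  have h2 : ∀ N, maximalIdeal (BB k Q) ^ (N + (Q - 1)) ≤ mR k Q ^ N * maximalIdeal (BB k Q) ^ (Q - 1) := by
    intro N
    induction N with
    | zero => rw [zero_add, pow_zero, one_mul]
    | succ N ih =>
      have e1 : maximalIdeal (BB k Q) ^ (N + 1 + (Q - 1)) =
          maximalIdeal (BB k Q) * maximalIdeal (BB k Q) ^ (N + (Q - 1)) := by
        rw [← pow_succ']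
        congr 1
        omega
      rw [e1]
      refine (Ideal.mul_mono_right ih).trans ?_
      rw [mul_left_comm, ← pow_succ', Nat.sub_add_cancel hQ]
      refine (Ideal.mul_mono_right h1).trans ?_
      rw [← mul_assoc, ← pow_succ]
  exact (h2 N).trans Ideal.mul_le_left

lemma colength_mR_pow (n : ℕ) : colength (mR k Q ^ n) = (Q * tri n : ℕ) := by
  rcases Nat.eq_zero_or_pos n with rfl | hn
  · rw [pow_zero, Ideal.one_eq_top, colength_top]
    simp [tri]
  · rw [← Ideal.map_pow, colength_map' k Q (n := n) le_rfl (Ideal.pow_le_self hn.ne'),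
      colength_max_pow]
    push_cast
    rfl

lemma two_tri' (n : ℕ) : (2 : ℝ) * (tri n : ℝ) = n * (n + 1) := by exact_mod_cast two_tri n

lemma len_bounds (n : ℕ) (_ : 1 ≤ n) :
    (Q : ℝ) * ((n : ℝ) - Q) ^ 2 ≤ 2 * len (maximalIdeal (BB k Q) ^ n) + (if n ≤ Q then Q * ((n : ℝ) - Q) ^ 2 else 0) ∧
      2 * len (maximalIdeal (BB k Q) ^ n) ≤ Q * (n * (n + 1)) := by
  have hQ : 0 < Q := Nat.pos_of_ne_zero (NeZero.ne Q)
  have hup : colength (maximalIdeal (BB k Q) ^ n) ≤ (Q * tri n : ℕ) := by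
    rw [← colength_mR_pow k Q]
    exact colength_mono (Ideal.pow_right_mono (mR_le k Q) n)
  obtain ⟨v, hv⟩ := ENat.ne_top_iff_exists.mp (ne_top_of_le_ne_top (ENat.natCast_ne_top _) hup)
  have hlen : len (maximalIdeal (BB k Q) ^ n) = v := by
    unfold len
    rw [← hv, ENat.toNat_natCast]
  rw [hlen]
  rw [← hv] at hup
  have hup' : v ≤ Q * tri n := by exact_mod_cast hup
  have hup'' : (v : ℝ) ≤ Q * tri n := by exact_mod_cast hup'
  constructor
  · split_ifs with h
    · have : (0 : ℝ) ≤ 2 * v := by positivity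
      linarith
    · push Not at h
      rw [add_zero]
      have h1 : ((Q * tri (n - (Q - 1)) : ℕ) : ℕ∞) ≤ colength (maximalIdeal (BB k Q) ^ n) := by
        rw [← colength_mR_pow k Q]
        apply colength_mono
        have h2 := max_pow_le k Q (n - (Q - 1))
        rwa [Nat.sub_add_cancel (by omega)] at h2
      rw [← hv] at h1
      have h2 : Q * tri (n - (Q - 1)) ≤ v := by exact_mod_cast h1
      have h3 : (Q : ℝ) * tri (n - (Q - 1)) ≤ v := by exact_mod_cast h2
      have h4 := two_tri' (n - (Q - 1))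
      have h5 : ((n - (Q - 1) : ℕ) : ℝ) = n - Q + 1 := by
        rw [Nat.cast_sub (by omega), Nat.cast_sub (by omega)]
        push_cast
        ring
      rw [h5] at h4
      have hQ0 : (0 : ℝ) < Q := by exact_mod_cast hQ
      have hnQ : (Q : ℝ) < n := by exact_mod_cast h
      nlinarith
  · have h4 := two_tri' n
    have hQ0 : (0 : ℝ) < Q := by exact_mod_cast hQ
    nlinarith

lemma isMult : IsMult (BB k Q) Q := by
  unfold IsMult
  rw [dim_BB]
  have hQ : 0 < Q := Nat.pos_of_ne_zero (NeZero.ne Q)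
  have t0 : Tendsto (fun n : ℕ => (Q : ℝ) / n) atTop (𝓝 0) := tendsto_const_div_atTop_nhds_zero_nat _
  have t1 : Tendsto (fun n : ℕ => (Q : ℝ) * (1 - Q / n) ^ 2) atTop (𝓝 (Q : ℝ)) := by
    have h := ((t0.const_sub 1).pow 2).const_mul (Q : ℝ)
    simpa using h
  have t2 : Tendsto (fun n : ℕ => (Q : ℝ) + Q / n) atTop (𝓝 (Q : ℝ)) := by
    have h := t0.const_add (Q : ℝ)
    simpa using h
  apply tendsto_of_tendsto_of_tendsto_of_le_of_le' t1 t2
  · filter_upwards [eventually_gt_atTop Q] with n hn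
    have h := (len_bounds k Q n (by omega)).1
    rw [if_neg (by omega), add_zero] at h
    have hn0 : (0 : ℝ) < n := by exact_mod_cast (by omega : 0 < n)
    rw [le_div_iff₀ (by positivity)]
    have e : (Q : ℝ) * (1 - Q / n) ^ 2 * n ^ 2 = Q * (n - Q) ^ 2 := by
      field_simp
    rw [e]
    norm_num [Nat.factorial]
    exact h
  · filter_upwards [eventually_gt_atTop Q] with n hn
    have h := (len_bounds k Q n (by omega)).2
    have hn0 : (0 : ℝ) < n := by exact_mod_cast (by omega : 0 < n)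
    rw [div_le_iff₀ (by positivity)]
    have e : ((Q : ℝ) + Q / n) * n ^ 2 = Q * (n * (n + 1)) := by
      field_simp
    rw [e]
    norm_num [Nat.factorial]
    exact h

/-! ### `A` is a domain -/

/-- The map `B⟦y⟧ → B⟦t⟧`, `y ↦ t^Q`. -/
noncomputable def exG (B : Type) [CommRing B] (Q : ℕ) [NeZero Q] : PowerSeries B →+* PowerSeries B :=
  (PowerSeries.expand Q (NeZero.ne Q)).toRingHom

omit [NeZero Q] in
lemma exG_C {B : Type} [CommRing B] [NeZero Q] (b : B) : exG B Q (PowerSeries.C b) = PowerSeries.C b :=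
  PowerSeries.expand_C Q (NeZero.ne Q) b

omit [NeZero Q] in
lemma exG_X {B : Type} [CommRing B] [NeZero Q] : exG B Q PowerSeries.X = PowerSeries.X ^ Q :=
  PowerSeries.expand_X Q (NeZero.ne Q)

omit [NeZero Q] in
lemma coeff_exG_mul {B : Type} [CommRing B] [NeZero Q] (g : PowerSeries B) (m : ℕ) :
    PowerSeries.coeff (Q * m) (exG B Q g) = PowerSeries.coeff m g :=
  PowerSeries.coeff_expand_mul Q (NeZero.ne Q) g m

omit [NeZero Q] in
lemma coeff_exG_of_not_dvd {B : Type} [CommRing B] [NeZero Q] (g : PowerSeries B) {m : ℕ}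
    (h : ¬ Q ∣ m) : PowerSeries.coeff m (exG B Q g) = 0 :=
  PowerSeries.coeff_expand_of_not_dvd Q (NeZero.ne Q) g h

/-- The map `k⟦x, y⟧ → k⟦x, t⟧`, `y ↦ t^Q`. -/
noncomputable def exQ : R2 k →+* R2 k := exG (PowerSeries k) Q

lemma exQ_f : exQ k Q (fQ k Q) = xx k ^ Q * yy k ^ Q := by
  unfold fQ exQ
  rw [map_mul, map_pow, exG_C, exG_X]

/-- The map `A → k⟦x, t⟧`, `y ↦ t^Q`, `z ↦ x t`. -/
noncomputable def rho : BB k Q →+* R2 k :=
  AdjoinRoot.lift (exQ k Q) (xx k * yy k) (by
    rw [Polynomial.eval₂_sub, Polynomial.eval₂_pow, Polynomial.eval₂_X, Polynomial.eval₂_C, exQ_f,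
      mul_pow, sub_self])

lemma rho_algebraMap (r : R2 k) :
    rho k Q (algebraMap (R2 k) (BB k Q) r) = exG (PowerSeries k) Q r :=
  AdjoinRoot.lift_of _

lemma rho_zz : rho k Q (zz (fQ k Q) Q) = xx k * yy k := AdjoinRoot.lift_root _

lemma rho_injective : Function.Injective (rho k Q) := by
  rw [injective_iff_map_eq_zero]
  intro a ha
  have hQ : 0 < Q := Nat.pos_of_ne_zero (NeZero.ne Q)
  apply (ee (fQ k Q) Q (NeZero.ne Q)).injective
  rw [map_zero]
  funext j
  rw [Pi.zero_apply]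
  ext1 n
  rw [sum_ee (fQ k Q) Q (NeZero.ne Q) a, map_sum] at ha
  have h1 := congrArg (PowerSeries.coeff (Q * n + j)) ha
  rw [map_sum, Finset.sum_eq_single j] at h1
  · rw [map_mul, map_pow, rho_algebraMap, rho_zz, mul_pow, mul_left_comm, ← map_pow,
      PowerSeries.coeff_C_mul, PowerSeries.coeff_mul_X_pow, coeff_exG_mul] at h1
    exact (mul_eq_zero.mp h1).resolve_left (pow_ne_zero _ PowerSeries.X_ne_zero)
  · intro i _ hij
    rw [map_mul, map_pow, rho_algebraMap, rho_zz, mul_pow, mul_left_comm, ← map_pow,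
      PowerSeries.coeff_C_mul, PowerSeries.coeff_mul_X_pow']
    split_ifs with hle
    · rw [coeff_exG_of_not_dvd, mul_zero]
      rintro ⟨q, hq⟩
      apply hij
      have h3 : Q * n + j = Q * q + i := by omega
      have h4 := congrArg (fun t => t % Q) h3
      simp only [Nat.mul_add_mod, Nat.mod_eq_of_lt j.2, Nat.mod_eq_of_lt i.2] at h4
      exact Fin.ext h4.symm
    · rw [mul_zero]
  · intro h
    exact absurd (Finset.mem_univ j) h

instance isDomain_BB : IsDomain (BB k Q) := (rho_injective k Q).isDomain (rho k Q)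

end Example

/-- Let `k` be an F-finite field of characteristic `p`, `Q = p^m` with `m ≥ 1`, and
`A = k⟦x, y⟧[z]/(z^Q - x^Q y)`. Then `A` is an F-finite Gorenstein local domain of dimension two with
`e(A) = e_HK(A) = Q` and `s(A) = 0`. In particular `e_HK(A) = s(A) + (1 - s(A)) e(A)`, and the answer
to Q1 is negative. -/
theorem result :
    (∀ (p : ℕ) [Fact p.Prime] (k : Type) [Field k] [CharP k p], (frobenius k p).Finite →
      ∀ (m : ℕ) [NeZero (p ^ m)], 1 ≤ m → IsExample p (BB k (p ^ m)) (p ^ m)) ∧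
    ¬ Q1 := by
  have hmain : ∀ (p : ℕ) [Fact p.Prime] (k : Type) [Field k] [CharP k p], (frobenius k p).Finite →
      ∀ (m : ℕ) [NeZero (p ^ m)], 1 ≤ m → IsExample p (BB k (p ^ m)) (p ^ m) := by
    intro p _ k _ _ hk m _ hm
    have h1 : 1 < p ^ m := Nat.one_lt_pow (by omega) (Fact.out : p.Prime).one_lt
    have e1 := isMult k (p ^ m)
    have e2 := isHK k (p ^ m) p rfl
    push_cast at e1 e2
    exact ⟨inferInstance, inferInstance, ffinite k (p ^ m) p hk, dim_BB k (p ^ m), gor k (p ^ m), e1, e2,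
      isFSig k (p ^ m) p rfl h1⟩
  refine ⟨hmain, ?_⟩
  intro hQ
  have : Fact (Nat.Prime 3) := ⟨Nat.prime_three⟩
  have : NeZero (3 ^ 1) := ⟨by norm_num⟩
  have hfin : (frobenius (ZMod 3) 3).Finite := by
    apply RingHom.Finite.of_surjective
    intro a
    exact ⟨a, ZMod.frobenius_zmod 3 ▸ rfl⟩
  obtain ⟨h1, h2, h3, h4, h5, h6, h7, h8⟩ := hmain 3 (ZMod 3) hfin 1 le_rfl
  have h9 := hQ 3 (BB (ZMod 3) (3 ^ 1)) h3 h5 (by rw [h4]) _ _ _ h6 h7 h8 (by norm_num)
  norm_num at h9

end Pool.Agent.Results.MP_be9c2a_al.InseparableHypersurface
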